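import Mathlib
import Pool.Agent.V11117.HT

namespace Pool.Agent.Results.MP_6dcedf_co.HoudreTetaliFails

open Finset Pool.Agent.V11117.HT

section defs
variable {V : Type} [Fintype V] [DecidableEq V] (G : SimpleGraph V) [DecidableRel G.Adj]

/-- the transition matrix of the simple random walk: P(v,u) = 1/deg(v) if uv is an edge, else 0 -/
noncomputable def transition : Matrix V V ℝ :=
  Matrix.of fun v u => if G.Adj v u then 1 / (G.degree v : ℝ) else 0

/-- the stationary distribution deg(v)/(2|E|) -/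
noncomputable def statio (v : V) : ℝ := (G.degree v : ℝ) / (2 * (G.edgeFinset.card : ℝ))

/-- the quantity phi_p(G): the minimum over nonempty S with pi(S) ≤ 1/2 of
  (sum over v in S of pi(v) * (sum over u outside S of P(v,u))^p) / pi(S) -/
noncomputable def phi (p : ℝ) : ℝ :=
  sInf {q : ℝ | ∃ S : Finset V, S.Nonempty ∧ ∑ v ∈ S, statio G v ≤ 1 / 2 ∧
    q = (∑ v ∈ S, statio G v * (∑ u ∈ Sᶜ, transition G v u) ^ p) / ∑ v ∈ S, statio G v}

/-- the second smallest eigenvalue (with multiplicity) of I - P: second entry of the sorted list of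
  the real roots of the characteristic polynomial -/
noncomputable def lam2 : ℝ :=
  (((1 - transition G).charpoly.roots).sort (· ≤ ·)).getD 1 0

end defs

section generic
variable {V : Type} [Fintype V] [DecidableEq V] (G : SimpleGraph V) [DecidableRel G.Adj]

lemma isRoot_of_eigvec {A : Matrix V V ℝ} {μ : ℝ} {f : V → ℝ} (hf : f ≠ 0)
    (h : A.mulVec f = μ • f) : A.charpoly.IsRoot μ := by
  rw [Polynomial.IsRoot, Matrix.eval_charpoly]
  rw [← Matrix.exists_mulVec_eq_zero_iff]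
  refine ⟨f, hf, ?_⟩
  rw [Matrix.sub_mulVec, h]
  ext v
  simp [Matrix.scalar_apply]

lemma lam2_le {μ : ℝ} (hμ : 0 < μ) (h0 : (1 - transition G).charpoly.IsRoot 0)
    (h1 : (1 - transition G).charpoly.IsRoot μ) : lam2 G ≤ μ := by
  unfold lam2
  set l := ((1 - transition G).charpoly.roots).sort (· ≤ ·) with hl
  have hne : (1 - transition G).charpoly ≠ 0 := (Matrix.charpoly_monic _).ne_zero
  have hs : l.Pairwise (· ≤ ·) := Multiset.pairwise_sort _ _
  have m0 : (0:ℝ) ∈ l := by rw [hl, Multiset.mem_sort, Polynomial.mem_roots hne]; exact h0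
  have m1 : μ ∈ l := by rw [hl, Multiset.mem_sort, Polynomial.mem_roots hne]; exact h1
  clear_value l
  match l, hs, m0, m1 with
  | [], _, m0, _ => simp at m0
  | [a], _, m0, m1 =>
    simp at m0 m1
    linarith
  | a :: b :: t, hs, m0, m1 =>
    show b ≤ μ
    rw [List.pairwise_cons] at hs
    rcases List.mem_cons.mp m1 with h | h
    · -- μ = a, but a ≤ everything
      rcases List.mem_cons.mp m0 with h' | h'
      · linarith
      · have := hs.1 0 h'
        linarith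
    · rcases List.mem_cons.mp h with h' | h'
      · exact h'.ge
      · have h2 := hs.2
        rw [List.pairwise_cons] at h2
        exact h2.1 μ h'

end generic

section graph

open Classical in
/-- the connection set -/
noncomputable def Gen (K : ℕ) : Finset (Vt K) := ((range (K + 1)).biUnion (B K)).erase 0

lemma mem_Gen {K : ℕ} {g : Vt K} : g ∈ Gen K ↔ g ≠ 0 ∧ ∃ j ≤ K, g ∈ B K j := by
  classical
  simp only [Gen, mem_erase, mem_biUnion, mem_range, Nat.lt_succ_iff, ne_eq]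

lemma neg_mem_B {K j : ℕ} {g : Vt K} (h : g ∈ B K j) : -g ∈ B K j := by
  rw [mem_B] at h ⊢
  obtain ⟨⟨z, hz, hz2⟩, h2⟩ := h
  refine ⟨⟨-z, by rwa [abs_neg], by push_cast; rw [hz2]; rfl⟩, ?_⟩
  rw [mem_H] at h2 ⊢
  intro t ht
  have := h2 t ht
  show -(g.2 t) = 0
  rw [this, neg_zero]

lemma neg_mem_Gen {K : ℕ} {g : Vt K} (h : g ∈ Gen K) : -g ∈ Gen K := by
  rw [mem_Gen] at h ⊢
  obtain ⟨h1, j, hj, h2⟩ := h
  exact ⟨neg_ne_zero.mpr h1, j, hj, neg_mem_B h2⟩

/-- the Cayley graph -/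
def cg (K : ℕ) : SimpleGraph (Vt K) where
  Adj u v := v - u ∈ Gen K
  symm := ⟨by
    intro u v h
    have := neg_mem_Gen h
    rwa [neg_sub] at this⟩
  loopless := ⟨by
    intro u h
    rw [sub_self, mem_Gen] at h
    exact h.1 rfl⟩

lemma cg_adj {K : ℕ} {u v : Vt K} : (cg K).Adj u v ↔ v - u ∈ Gen K := Iff.rfl

noncomputable instance instDecCg (K : ℕ) : DecidableRel (cg K).Adj := Classical.decRel _

lemma sum_nbr {K : ℕ} (v : Vt K) (F : Vt K → ℝ) :
    ∑ u, (if (cg K).Adj v u then F u else 0) = ∑ g ∈ Gen K, F (v + g) := by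
  classical
  have h1 : ∑ u, (if (cg K).Adj v u then F u else 0) =
      ∑ g, (if g ∈ Gen K then F (v + g) else 0) := by
    symm
    refine Fintype.sum_equiv (Equiv.addLeft v) _ _ ?_
    intro g
    have : (cg K).Adj v (v + g) ↔ g ∈ Gen K := by
      rw [cg_adj, add_sub_cancel_left]
    simp only [Equiv.coe_addLeft, this]
  rw [h1, sum_ite_mem, univ_inter]

lemma degree_eq {K : ℕ} (v : Vt K) : (cg K).degree v = (Gen K).card := by
  classical
  have h : (cg K).neighborFinset v = (Gen K).image (fun g => v + g) := by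
    ext u
    rw [SimpleGraph.mem_neighborFinset, cg_adj, mem_image]
    constructor
    · intro h
      exact ⟨u - v, h, by abel⟩
    · rintro ⟨g, hg, rfl⟩
      rwa [add_sub_cancel_left]
  rw [← SimpleGraph.card_neighborFinset_eq_degree, h, card_image_of_injective]
  intro a b hab
  simpa using hab

lemma card_H_real {K j : ℕ} (hj : j ≤ K) : ((H K j).card : ℝ) * 8 ^ j = 8 ^ K := by
  exact_mod_cast card_H hj

lemma card_B_real {K j : ℕ} (hj : j ≤ K) : ((B K j).card : ℝ) * 4 ^ j ≤ 2 * 8 ^ K := by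
  have h1 : ((B K j).card : ℝ) ≤ 2 ^ (j + 1) * (H K j).card := by exact_mod_cast card_B_le K j
  have h2 := card_H_real hj
  have h3 : (8:ℝ) ^ j = 2 ^ j * 4 ^ j := by rw [← mul_pow]; norm_num
  calc ((B K j).card : ℝ) * 4 ^ j ≤ (2 ^ (j + 1) * (H K j).card) * 4 ^ j := by gcongr
    _ = 2 * ((H K j).card * (2 ^ j * 4 ^ j)) := by ring
    _ = 2 * 8 ^ K := by rw [← h3, h2]

lemma sum_quarter (m : ℕ) : ∑ j ∈ range m, ((1:ℝ) / 4) ^ j ≤ 4 / 3 := by
  have : ∑ j ∈ range m, ((1:ℝ) / 4) ^ j = 4 / 3 * (1 - (1 / 4) ^ m) := by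
    induction m with
    | zero => simp
    | succ m ih => rw [sum_range_succ, ih]; ring
  rw [this]
  have : (0:ℝ) < (1 / 4) ^ m := by positivity
  linarith

lemma card_Gen_le (K : ℕ) : ((Gen K).card : ℝ) ≤ 3 * 8 ^ K := by
  classical
  have h1 : (Gen K).card ≤ ∑ j ∈ range (K + 1), (B K j).card :=
    (card_le_card (erase_subset _ _)).trans card_biUnion_le
  have h2 : ((Gen K).card : ℝ) ≤ ∑ j ∈ range (K + 1), ((B K j).card : ℝ) := by exact_mod_cast h1
  have h3 : ∀ j ∈ range (K + 1), ((B K j).card : ℝ) ≤ 2 * 8 ^ K * ((1:ℝ) / 4) ^ j := by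
    intro j hj
    have hj' : j ≤ K := Nat.lt_succ_iff.mp (mem_range.mp hj)
    have h4 := card_B_real hj'
    rw [one_div, inv_pow, ← div_eq_mul_inv, le_div_iff₀ (by positivity)]
    exact h4
  calc ((Gen K).card : ℝ) ≤ ∑ j ∈ range (K + 1), ((B K j).card : ℝ) := h2
    _ ≤ ∑ j ∈ range (K + 1), 2 * 8 ^ K * ((1:ℝ) / 4) ^ j := sum_le_sum h3
    _ = 2 * 8 ^ K * ∑ j ∈ range (K + 1), ((1:ℝ) / 4) ^ j := by rw [mul_sum]
    _ ≤ 2 * 8 ^ K * (4 / 3) := by gcongr; exact sum_quarter _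
    _ ≤ 3 * 8 ^ K := by nlinarith [show (0:ℝ) < 8 ^ K by positivity]

lemma card_Gen_ge {K : ℕ} (hK : 1 ≤ K) : (8:ℝ) ^ K ≤ 2 * (Gen K).card := by
  classical
  have h1 : (univ : Finset (X K)).image (fun x => ((0, x) : Vt K)) ⊆ insert 0 (Gen K) := by
    intro g hg
    rw [mem_image] at hg
    obtain ⟨x, -, rfl⟩ := hg
    rw [mem_insert, mem_Gen]
    by_cases h : ((0, x) : Vt K) = 0
    · left; exact h
    · right
      refine ⟨h, 0, Nat.zero_le _, ?_⟩
      rw [mem_B]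
      refine ⟨⟨0, by simp, by simp⟩, ?_⟩
      rw [mem_H]
      intro t ht
      omega
  have h2 := (card_le_card h1).trans (card_insert_le _ _)
  rw [card_image_of_injective _ (by intro a b hab; simpa using hab), card_univ, card_X] at h2
  have h3 : (8:ℕ) ^ 1 ≤ 8 ^ K := Nat.pow_le_pow_right (by norm_num) hK
  have h4 : 8 ^ K ≤ 2 * (Gen K).card := by omega
  exact_mod_cast h4

lemma card_Vt (K : ℕ) : Fintype.card (Vt K) = 2 ^ K * 8 ^ K := by
  rw [Fintype.card_prod, ZMod.card, card_X]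

/-- escape probability -/
noncomputable def esc (K : ℕ) (S : Finset (Vt K)) (v : Vt K) : ℝ := ∑ u ∈ Sᶜ, transition (cg K) v u

lemma esc_nonneg {K : ℕ} (S : Finset (Vt K)) (v : Vt K) : 0 ≤ esc K S v := by
  refine sum_nonneg (fun u _ => ?_)
  simp only [transition, Matrix.of_apply]
  split_ifs
  · positivity
  · exact le_rfl

lemma esc_ge {K j : ℕ} (hK : 1 ≤ K) (hj : j ≤ K) {S : Finset (Vt K)} {v : Vt K} (hv : v ∈ S)
    (h : 8 ^ K ≤ 8 * 4 ^ j * (out S j v).card) : 1 / (24 * 4 ^ j) ≤ esc K S v := by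
  classical
  have hD : (0:ℝ) < (Gen K).card := by
    have := card_Gen_ge hK
    have h8 : (0:ℝ) < 8 ^ K := by positivity
    linarith
  have h1 : ((out S j v).card : ℝ) * (1 / (Gen K).card) ≤ esc K S v := by
    unfold esc
    have hsub : out S j v ⊆ Sᶜ := by
      intro u hu
      rw [mem_out] at hu
      rw [mem_compl]
      exact hu.1
    calc ((out S j v).card : ℝ) * (1 / (Gen K).card) = ∑ u ∈ out S j v, (1 / ((Gen K).card : ℝ)) := by
          rw [sum_const, nsmul_eq_mul]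
      _ = ∑ u ∈ out S j v, transition (cg K) v u := by
          refine sum_congr rfl (fun u hu => ?_)
          rw [mem_out] at hu
          have hadj : (cg K).Adj v u := by
            rw [cg_adj, mem_Gen]
            refine ⟨?_, j, hj, hu.2⟩
            intro h0
            have : u = v := sub_eq_zero.mp h0
            rw [this] at hu
            exact hu.1 hv
          simp only [transition, Matrix.of_apply, hadj, if_true, degree_eq]
      _ ≤ ∑ u ∈ Sᶜ, transition (cg K) v u := by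
          refine sum_le_sum_of_subset_of_nonneg hsub (fun u _ _ => ?_)
          simp only [transition, Matrix.of_apply]
          split_ifs
          · positivity
          · exact le_rfl
  refine le_trans ?_ h1
  have h2 : (8:ℝ) ^ K ≤ 8 * 4 ^ j * (out S j v).card := by exact_mod_cast h
  have h3 := card_Gen_le K
  have h8 : (0:ℝ) < 8 ^ K := by positivity
  have h4j : (0:ℝ) < 4 ^ j := by positivity
  rw [mul_one_div, div_le_div_iff₀ (by positivity) hD]
  nlinarith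

lemma sum_half (m : ℕ) (t : ℕ) : ∑ k ∈ Ico m t, ((1:ℝ) / 2) ^ (k + 1) ≤ (1 / 2) ^ m := by
  rw [Finset.sum_Ico_eq_sum_range]
  have : ∑ i ∈ range (t - m), ((1:ℝ) / 2) ^ (m + i + 1) = (1 / 2) ^ m * (1 - (1 / 2) ^ (t - m)) := by
    induction (t - m) with
    | zero => simp
    | succ s ih => rw [sum_range_succ, ih]; ring
  rw [this]
  have h1 : (0:ℝ) < (1 / 2) ^ m := by positivity
  have h2 : (0:ℝ) < (1 / 2) ^ (t - m) := by positivity
  nlinarith

open Classical in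
lemma sqrt_esc_ge {K : ℕ} (hK : 1 ≤ K) {S : Finset (Vt K)} {v : Vt K} (hv : v ∈ S) :
    1 / 5 * ∑ k ∈ Icc 2 K, (if v ∈ U S k then ((1:ℝ) / 2) ^ (k + 1) else 0) ≤
      (esc K S v) ^ ((1:ℝ) / 2) := by
  by_cases hex : ∃ j ≤ K, 8 ^ K ≤ 8 * 4 ^ j * (out S j v).card
  · have hex' : ∃ j, j ≤ K ∧ 8 ^ K ≤ 8 * 4 ^ j * (out S j v).card := hex
    set m := Nat.find hex' with hm
    obtain ⟨hmK, hm1⟩ := Nat.find_spec hex'
    rw [← hm] at hmK hm1
    have hge := esc_ge hK hmK hv hm1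
    have h1 : ∑ k ∈ Icc 2 K, (if v ∈ U S k then ((1:ℝ) / 2) ^ (k + 1) else 0) ≤
        ∑ k ∈ Ico m (K + 1), ((1:ℝ) / 2) ^ (k + 1) := by
      rw [← sum_filter]
      refine sum_le_sum_of_subset_of_nonneg ?_ (fun _ _ _ => by positivity)
      intro k hk
      rw [mem_filter, mem_Icc] at hk
      rw [mem_Ico]
      refine ⟨?_, by omega⟩
      obtain ⟨⟨h2, hkK⟩, hU⟩ := hk
      rw [mem_U] at hU
      obtain ⟨-, j, hjk, hj⟩ := hU
      have := Nat.find_min' hex' ⟨(hjk.trans hkK), hj⟩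
      omega
    have h2 := h1.trans (sum_half m (K + 1))
    have h3 : (1 / 5 * (1 / 2) ^ m : ℝ) ≤ (esc K S v) ^ ((1:ℝ) / 2) := by
      rw [← Real.sqrt_eq_rpow]
      apply Real.le_sqrt_of_sq_le
      refine le_trans ?_ hge
      have h4 : ((1:ℝ) / 5 * (1 / 2) ^ m) ^ 2 = 1 / 25 * (1 / 4) ^ m := by
        rw [mul_pow, ← pow_mul, mul_comm m 2, pow_mul]
        norm_num
      rw [h4]
      have h5 : (1:ℝ) / (24 * 4 ^ m) = 1 / 24 * (1 / 4) ^ m := by
        rw [one_div_pow]; field_simp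
      rw [h5]
      have : (0:ℝ) < (1 / 4) ^ m := by positivity
      nlinarith
    linarith
  · have h0 : ∑ k ∈ Icc 2 K, (if v ∈ U S k then ((1:ℝ) / 2) ^ (k + 1) else 0) = 0 := by
      refine sum_eq_zero (fun k hk => ?_)
      rw [mem_Icc] at hk
      rw [if_neg]
      intro hU
      rw [mem_U] at hU
      obtain ⟨-, j, hjk, hj⟩ := hU
      exact hex ⟨j, hjk.trans hk.2, hj⟩
    rw [h0, mul_zero]
    exact Real.rpow_nonneg (esc_nonneg S v) _

lemma sum_sqrt_ge {K : ℕ} (hK : 2 ≤ K) {S : Finset (Vt K)} (hS : S.Nonempty)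
    (hhalf : 2 * S.card ≤ 2 ^ K * 8 ^ K) :
    ((K:ℝ) - 1) / (160 * 2 ^ K) * S.card ≤ ∑ v ∈ S, (esc K S v) ^ ((1:ℝ) / 2) := by
  classical
  have h1 : ∑ v ∈ S, 1 / 5 * ∑ k ∈ Icc 2 K, (if v ∈ U S k then ((1:ℝ) / 2) ^ (k + 1) else 0) ≤
      ∑ v ∈ S, (esc K S v) ^ ((1:ℝ) / 2) := sum_le_sum (fun v hv => sqrt_esc_ge (by omega) hv)
  refine le_trans ?_ h1
  rw [← mul_sum, sum_comm]
  have h2 : ∀ k ∈ Icc 2 K, (S.card : ℝ) / (32 * 2 ^ K) ≤
      ∑ v ∈ S, (if v ∈ U S k then ((1:ℝ) / 2) ^ (k + 1) else 0) := by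
    intro k hk
    rw [mem_Icc] at hk
    have h3 := main hk.1 hk.2 S hS hhalf
    have h4 : (2:ℝ) ^ k * S.card ≤ 16 * 2 ^ K * (U S k).card := by exact_mod_cast h3
    have h5 : ∑ v ∈ S, (if v ∈ U S k then ((1:ℝ) / 2) ^ (k + 1) else 0) =
        (U S k).card * ((1:ℝ) / 2) ^ (k + 1) := by
      rw [← sum_filter, sum_const, nsmul_eq_mul]
      congr 2
      congr 1
      ext v
      rw [mem_filter]
      constructor
      · exact fun h => h.2
      · intro h
        exact ⟨(mem_U.mp h).1, h⟩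
    rw [h5, one_div_pow, pow_succ, mul_one_div, div_le_div_iff₀ (by positivity) (by positivity)]
    nlinarith
  have h6 := sum_le_sum h2
  rw [sum_const, Nat.card_Icc, nsmul_eq_mul] at h6
  have h7 : ((K + 1 - 2 : ℕ) : ℝ) = (K:ℝ) - 1 := by
    rw [Nat.cast_sub (by omega)]; push_cast; ring
  rw [h7] at h6
  have h8 : ((K:ℝ) - 1) / (160 * 2 ^ K) * S.card = 1 / 5 * (((K:ℝ) - 1) * ((S.card : ℝ) / (32 * 2 ^ K))) := by
    field_simp; ring
  rw [h8]
  linarith

lemma statio_eq {K : ℕ} (hK : 1 ≤ K) (v : Vt K) : statio (cg K) v = 1 / (2 ^ K * 8 ^ K) := by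
  classical
  unfold statio
  have h := SimpleGraph.sum_degrees_eq_twice_card_edges (cg K)
  rw [sum_congr rfl (fun v _ => degree_eq v), sum_const, card_univ, card_Vt, smul_eq_mul] at h
  have h2 : (2:ℝ) * ((cg K).edgeFinset.card : ℝ) = (2 ^ K * 8 ^ K) * (Gen K).card := by
    exact_mod_cast h.symm
  rw [h2, degree_eq]
  have hD : (0:ℝ) < (Gen K).card := by
    have := card_Gen_ge hK
    have h8 : (0:ℝ) < 8 ^ K := by positivity
    linarith
  field_simp

lemma phi_ge {K : ℕ} (hK : 2 ≤ K) : ((K:ℝ) - 1) / (160 * 2 ^ K) ≤ phi (cg K) (1 / 2) := by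
  classical
  have hN : (0:ℝ) < 2 ^ K * 8 ^ K := by positivity
  unfold phi
  apply le_csInf
  · refine ⟨_, {0}, singleton_nonempty _, ?_, rfl⟩
    rw [sum_singleton, statio_eq (by omega)]
    rw [div_le_div_iff₀ (by positivity) (by norm_num)]
    have h1 : (1:ℝ) ≤ 8 ^ K := one_le_pow₀ (by norm_num)
    have h2 : (2:ℝ) ^ 1 ≤ 2 ^ K := pow_le_pow_right₀ (by norm_num) (by omega)
    nlinarith
  · rintro q ⟨S, hS, hpi, rfl⟩
    have hc : ∑ v ∈ S, statio (cg K) v = S.card / (2 ^ K * 8 ^ K) := by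
      rw [sum_congr rfl (fun v _ => statio_eq (by omega) v), sum_const, nsmul_eq_mul, mul_one_div]
    have hSpos : (0:ℝ) < S.card := by exact_mod_cast card_pos.mpr hS
    rw [hc] at hpi ⊢
    have hhalf : 2 * S.card ≤ 2 ^ K * 8 ^ K := by
      rw [div_le_div_iff₀ hN (by norm_num)] at hpi
      have : (2 * S.card : ℝ) ≤ 2 ^ K * 8 ^ K := by linarith
      exact_mod_cast this
    have h1 : ∑ v ∈ S, statio (cg K) v * (∑ u ∈ Sᶜ, transition (cg K) v u) ^ ((1:ℝ) / 2) =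
        1 / (2 ^ K * 8 ^ K) * ∑ v ∈ S, (esc K S v) ^ ((1:ℝ) / 2) := by
      rw [mul_sum]
      refine sum_congr rfl (fun v _ => ?_)
      rw [statio_eq (by omega)]
      rfl
    rw [h1, le_div_iff₀ (by positivity)]
    have h2 := sum_sqrt_ge hK hS hhalf
    calc ((K:ℝ) - 1) / (160 * 2 ^ K) * (S.card / (2 ^ K * 8 ^ K))
        = 1 / (2 ^ K * 8 ^ K) * (((K:ℝ) - 1) / (160 * 2 ^ K) * S.card) := by ring
      _ ≤ _ := by gcongr

/-- cosine on the cycle -/
noncomputable def ch (K : ℕ) (i : ZMod (2 ^ K)) : ℝ := Real.cos (2 * Real.pi * (i.val : ℝ) / 2 ^ K)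

/-- sine on the cycle -/
noncomputable def sn (K : ℕ) (i : ZMod (2 ^ K)) : ℝ := Real.sin (2 * Real.pi * (i.val : ℝ) / 2 ^ K)

lemma rep {K : ℕ} (z : ℤ) : ∃ m : ℤ, (((z : ℤ) : ZMod (2 ^ K)).val : ℤ) = z + m * 2 ^ K := by
  have h : ((((z : ℤ) : ZMod (2 ^ K)).val : ℤ) : ZMod (2 ^ K)) = (z : ZMod (2 ^ K)) := by
    rw [Int.cast_natCast, ZMod.natCast_zmod_val]
  have h2 := (ZMod.intCast_eq_intCast_iff_dvd_sub _ _ _).mp h.symm
  obtain ⟨m, hm⟩ := h2
  refine ⟨m, ?_⟩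
  push_cast at hm
  linarith

lemma ch_int {K : ℕ} (z : ℤ) : ch K (z : ZMod (2 ^ K)) = Real.cos (2 * Real.pi * (z : ℝ) / 2 ^ K) := by
  obtain ⟨m, hm⟩ := rep (K := K) z
  have h : ((((z : ℤ) : ZMod (2 ^ K)).val : ℕ) : ℝ) = (z : ℝ) + m * 2 ^ K := by exact_mod_cast hm
  unfold ch
  rw [h]
  have h2 : 2 * Real.pi * ((z : ℝ) + m * 2 ^ K) / 2 ^ K = 2 * Real.pi * (z : ℝ) / 2 ^ K + m * (2 * Real.pi) := by
    field_simp
  rw [h2, Real.cos_add_int_mul_two_pi]

lemma sn_int {K : ℕ} (z : ℤ) : sn K (z : ZMod (2 ^ K)) = Real.sin (2 * Real.pi * (z : ℝ) / 2 ^ K) := by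
  obtain ⟨m, hm⟩ := rep (K := K) z
  have h : ((((z : ℤ) : ZMod (2 ^ K)).val : ℕ) : ℝ) = (z : ℝ) + m * 2 ^ K := by exact_mod_cast hm
  unfold sn
  rw [h]
  have h2 : 2 * Real.pi * ((z : ℝ) + m * 2 ^ K) / 2 ^ K = 2 * Real.pi * (z : ℝ) / 2 ^ K + m * (2 * Real.pi) := by
    field_simp
  rw [h2, Real.sin_add_int_mul_two_pi]

lemma exists_int {K : ℕ} (i : ZMod (2 ^ K)) : ∃ z : ℤ, (z : ZMod (2 ^ K)) = i :=
  ⟨(i.val : ℤ), by rw [Int.cast_natCast, ZMod.natCast_zmod_val]⟩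

lemma ch_add {K : ℕ} (i j : ZMod (2 ^ K)) : ch K (i + j) = ch K i * ch K j - sn K i * sn K j := by
  obtain ⟨a, rfl⟩ := exists_int i
  obtain ⟨b, rfl⟩ := exists_int j
  rw [← Int.cast_add, ch_int, ch_int, ch_int, sn_int, sn_int, ← Real.cos_add]
  congr 1
  push_cast
  ring

lemma sn_neg {K : ℕ} (i : ZMod (2 ^ K)) : sn K (-i) = - sn K i := by
  obtain ⟨a, rfl⟩ := exists_int i
  rw [← Int.cast_neg, sn_int, sn_int, ← Real.sin_neg]
  congr 1
  push_cast
  ring

lemma sum_sn (K : ℕ) : ∑ g ∈ Gen K, sn K g.1 = 0 := by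
  have h : ∑ g ∈ Gen K, sn K g.1 = ∑ g ∈ Gen K, sn K (-g).1 := by
    refine sum_nbij' (fun g => -g) (fun g => -g) ?_ ?_ ?_ ?_ ?_
    · intro g hg; exact neg_mem_Gen hg
    · intro g hg; exact neg_mem_Gen hg
    · intro g _; simp
    · intro g _; simp
    · intro g _; simp
  have h2 : ∑ g ∈ Gen K, sn K (-g).1 = - ∑ g ∈ Gen K, sn K g.1 := by
    rw [← sum_neg_distrib]
    refine sum_congr rfl (fun g _ => ?_)
    exact sn_neg g.1
  linarith

/-- the eigenvalue -/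
noncomputable def mu (K : ℕ) : ℝ := (∑ g ∈ Gen K, (1 - ch K g.1)) / (Gen K).card

lemma gen_pos {K : ℕ} (hK : 1 ≤ K) : (0:ℝ) < (Gen K).card := by
  have := card_Gen_ge hK
  have h8 : (0:ℝ) < 8 ^ K := by positivity
  linarith

lemma transition_mulVec {K : ℕ} (f : Vt K → ℝ) (v : Vt K) :
    (transition (cg K)).mulVec f v = (∑ g ∈ Gen K, f (v + g)) / (Gen K).card := by
  classical
  rw [← sum_nbr v f, sum_div]
  simp only [Matrix.mulVec, dotProduct, transition, Matrix.of_apply]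
  refine sum_congr rfl (fun u _ => ?_)
  split_ifs
  · rw [degree_eq]; ring
  · simp

lemma root_zero {K : ℕ} (hK : 1 ≤ K) : (1 - transition (cg K)).charpoly.IsRoot 0 := by
  have hD := gen_pos hK
  apply isRoot_of_eigvec (f := fun _ => (1:ℝ))
  · intro h
    have := congrFun h 0
    simp at this
  · ext v
    rw [Matrix.sub_mulVec, Matrix.one_mulVec, Pi.sub_apply, transition_mulVec]
    simp only [sum_const, nsmul_eq_mul, mul_one, Pi.smul_apply, smul_eq_mul, zero_mul]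
    field_simp
    ring

lemma root_mu {K : ℕ} (hK : 1 ≤ K) : (1 - transition (cg K)).charpoly.IsRoot (mu K) := by
  have hD := gen_pos hK
  apply isRoot_of_eigvec (f := fun v => ch K v.1)
  · intro h
    have h1 := congrFun h 0
    simp [ch] at h1
  · ext v
    rw [Matrix.sub_mulVec, Matrix.one_mulVec, Pi.sub_apply, transition_mulVec]
    have h1 : ∑ g ∈ Gen K, ch K (v + g).1 = ch K v.1 * ∑ g ∈ Gen K, ch K g.1 := by
      have h2 : ∀ g ∈ Gen K, ch K (v + g).1 = ch K v.1 * ch K g.1 - sn K v.1 * sn K g.1 := by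
        intro g _
        exact ch_add v.1 g.1
      rw [sum_congr rfl h2, sum_sub_distrib, ← mul_sum, ← mul_sum, sum_sn, mul_zero, sub_zero]
    show ch K v.1 - (∑ g ∈ Gen K, ch K (v + g).1) / (Gen K).card = mu K * ch K v.1
    rw [h1, mu, sum_sub_distrib, sum_const, nsmul_eq_mul, mul_one]
    field_simp

lemma ch_le_one {K : ℕ} (i : ZMod (2 ^ K)) : ch K i ≤ 1 := Real.cos_le_one _

lemma one_mem_Gen {K : ℕ} (hK : 1 ≤ K) : ((1, 0) : Vt K) ∈ Gen K := by
  rw [mem_Gen]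
  refine ⟨?_, 1, hK, ?_⟩
  · intro h
    have h1 : (1 : ZMod (2 ^ K)) = 0 := congrArg Prod.fst h
    have h2 : 1 < 2 ^ K := Nat.one_lt_two_pow (by omega)
    have h3 : ((1 : ℕ) : ZMod (2 ^ K)).val = 0 := by
      rw [Nat.cast_one, h1, ZMod.val_zero]
    rw [ZMod.val_natCast, Nat.mod_eq_of_lt h2] at h3
    exact absurd h3 one_ne_zero
  · rw [mem_B]
    exact ⟨⟨1, by norm_num, by simp⟩, zero_mem_H⟩

lemma ch_one_lt {K : ℕ} (hK : 1 ≤ K) : 0 < 1 - ch K ((1:ℤ) : ZMod (2 ^ K)) := by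
  have h2 : ch K ((1:ℤ) : ZMod (2 ^ K)) = Real.cos (2 * Real.pi * ((1:ℤ) : ℝ) / 2 ^ K) := ch_int 1
  rw [h2, Int.cast_one]
  have hpi := Real.pi_pos
  have hn : (2:ℝ) ^ 1 ≤ 2 ^ K := pow_le_pow_right₀ (by norm_num) hK
  have h4 : 2 * Real.pi * (1 : ℝ) / 2 ^ K ≤ Real.pi := by
    rw [div_le_iff₀ (by positivity)]
    nlinarith
  have h5 : 0 < 2 * Real.pi * (1 : ℝ) / 2 ^ K := by positivity
  have h3 : Real.cos (2 * Real.pi * (1 : ℝ) / 2 ^ K) < Real.cos 0 :=
    Real.cos_lt_cos_of_nonneg_of_le_pi le_rfl h4 h5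
  rw [Real.cos_zero] at h3
  linarith

lemma mu_pos {K : ℕ} (hK : 1 ≤ K) : 0 < mu K := by
  have hD := gen_pos hK
  unfold mu
  refine div_pos ?_ hD
  have hmem := one_mem_Gen hK
  have h1 := ch_one_lt hK
  rw [Int.cast_one] at h1
  have h2 : ∀ g ∈ Gen K, 0 ≤ 1 - ch K g.1 := fun g _ => by
    have := ch_le_one g.1
    linarith
  have h3 := single_le_sum h2 hmem
  exact lt_of_lt_of_le h1 h3

lemma one_sub_ch_le {K j : ℕ} {g : Vt K} (hg : g ∈ B K j) :
    1 - ch K g.1 ≤ 2 * Real.pi ^ 2 * 4 ^ j / 4 ^ K := by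
  rw [mem_B] at hg
  obtain ⟨⟨z, hz, hz2⟩, -⟩ := hg
  rw [← hz2, ch_int]
  have h1 := Real.one_sub_sq_div_two_le_cos (x := 2 * Real.pi * (z : ℝ) / 2 ^ K)
  have h2 : ((z:ℝ)) ^ 2 ≤ 4 ^ j := by
    have h3 : |(z:ℝ)| < 2 ^ j := by exact_mod_cast hz
    have h4 : (4:ℝ) ^ j = (2 ^ j) ^ 2 := by rw [← pow_mul, mul_comm, pow_mul]; norm_num
    rw [h4, ← sq_abs]
    exact pow_le_pow_left₀ (abs_nonneg _) h3.le 2
  have h5 : (2 * Real.pi * (z : ℝ) / 2 ^ K) ^ 2 / 2 = 2 * Real.pi ^ 2 * (z:ℝ) ^ 2 / 4 ^ K := by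
    have h6 : (4:ℝ) ^ K = (2 ^ K) ^ 2 := by rw [← pow_mul, mul_comm, pow_mul]; norm_num
    rw [h6]; field_simp
  rw [h5] at h1
  have h7 : 2 * Real.pi ^ 2 * (z:ℝ) ^ 2 / 4 ^ K ≤ 2 * Real.pi ^ 2 * 4 ^ j / 4 ^ K := by gcongr
  linarith

lemma mu_le {K : ℕ} (hK : 1 ≤ K) : mu K ≤ 80 * ((K:ℝ) + 1) / 4 ^ K := by
  classical
  have hD := gen_pos hK
  have hge := card_Gen_ge hK
  have hnn : ∀ g : Vt K, 0 ≤ 1 - ch K g.1 := fun g => by have := ch_le_one g.1; linarith
  have h1 : ∑ g ∈ Gen K, (1 - ch K g.1) ≤ ∑ j ∈ range (K + 1), ∑ g ∈ B K j, (1 - ch K g.1) := by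
    calc ∑ g ∈ Gen K, (1 - ch K g.1)
        ≤ ∑ g ∈ Gen K, ∑ j ∈ range (K + 1), (if g ∈ B K j then (1 - ch K g.1) else 0) := by
          refine sum_le_sum (fun g hg => ?_)
          rw [mem_Gen] at hg
          obtain ⟨-, j, hj, hgj⟩ := hg
          have h2 := single_le_sum (f := fun j => if g ∈ B K j then (1 - ch K g.1) else 0)
            (s := range (K + 1)) (fun j _ => by
              show 0 ≤ if g ∈ B K j then (1 - ch K g.1) else 0
              split_ifs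
              · exact hnn g
              · exact le_rfl) (mem_range.mpr (Nat.lt_succ_of_le hj))
          simpa [hgj] using h2
      _ = ∑ j ∈ range (K + 1), ∑ g ∈ Gen K, (if g ∈ B K j then (1 - ch K g.1) else 0) := sum_comm
      _ ≤ _ := by
          refine sum_le_sum (fun j _ => ?_)
          rw [← sum_filter]
          refine sum_le_sum_of_subset_of_nonneg ?_ (fun g _ _ => hnn g)
          intro g hg
          exact (mem_filter.mp hg).2
  have h2 : ∀ j ∈ range (K + 1), ∑ g ∈ B K j, (1 - ch K g.1) ≤ 4 * Real.pi ^ 2 * 8 ^ K / 4 ^ K := by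
    intro j hj
    have hj' : j ≤ K := Nat.lt_succ_iff.mp (mem_range.mp hj)
    calc ∑ g ∈ B K j, (1 - ch K g.1) ≤ ∑ g ∈ B K j, 2 * Real.pi ^ 2 * 4 ^ j / 4 ^ K :=
          sum_le_sum (fun g hg => one_sub_ch_le hg)
      _ = (2 * Real.pi ^ 2 / 4 ^ K) * ((B K j).card * 4 ^ j) := by
          rw [sum_const, nsmul_eq_mul]; ring
      _ ≤ (2 * Real.pi ^ 2 / 4 ^ K) * (2 * 8 ^ K) :=
          mul_le_mul_of_nonneg_left (card_B_real hj') (by positivity)
      _ = _ := by ring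
  have h3 : ∑ g ∈ Gen K, (1 - ch K g.1) ≤ ((K:ℝ) + 1) * (4 * Real.pi ^ 2 * 8 ^ K / 4 ^ K) := by
    refine h1.trans ((sum_le_sum h2).trans (le_of_eq ?_))
    rw [sum_const, card_range, nsmul_eq_mul]
    push_cast
    ring
  have hpi : Real.pi ^ 2 ≤ 10 := by
    have h4 := Real.pi_lt_d2
    have h5 := Real.pi_pos
    nlinarith
  unfold mu
  rw [div_le_div_iff₀ hD (by positivity)]
  have h4 : (0:ℝ) < 4 ^ K := by positivity
  have h8 : (0:ℝ) < 8 ^ K := by positivity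
  have hK0 : (0:ℝ) ≤ (K:ℝ) + 1 := by positivity
  calc (∑ g ∈ Gen K, (1 - ch K g.1)) * 4 ^ K
      ≤ (((K:ℝ) + 1) * (4 * Real.pi ^ 2 * 8 ^ K / 4 ^ K)) * 4 ^ K := by gcongr
    _ = ((K:ℝ) + 1) * (4 * Real.pi ^ 2) * 8 ^ K := by field_simp
    _ ≤ ((K:ℝ) + 1) * (4 * 10) * (2 * (Gen K).card) := by gcongr
    _ = 80 * ((K:ℝ) + 1) * (Gen K).card := by ring

lemma connected_cg {K : ℕ} (hK : 1 ≤ K) : (cg K).Connected := by
  have hfib : ∀ (i : ZMod (2 ^ K)) (x y : X K), (cg K).Reachable (i, x) (i, y) := by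
    intro i x y
    by_cases hxy : x = y
    · rw [hxy]
    · apply SimpleGraph.Adj.reachable
      rw [cg_adj, mem_Gen]
      refine ⟨?_, 0, Nat.zero_le _, ?_⟩
      · intro h
        have h1 : y - x = 0 := congrArg Prod.snd h
        exact hxy (sub_eq_zero.mp h1).symm
      · rw [mem_B]
        refine ⟨⟨0, by simp, by simp⟩, ?_⟩
        rw [mem_H]
        intro t ht
        omega
  have hstep : ∀ m : ℕ, (cg K).Reachable (0, 0) ((m : ZMod (2 ^ K)), 0) := by
    intro m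
    induction m with
    | zero => rw [Nat.cast_zero]
    | succ m ih =>
      refine ih.trans ?_
      apply SimpleGraph.Adj.reachable
      rw [cg_adj, mem_Gen]
      have e : ((((m + 1 : ℕ) : ZMod (2 ^ K)), (0 : X K)) : Vt K) - ((m : ZMod (2 ^ K)), 0) = (1, 0) := by
        ext
        · show ((m + 1 : ℕ) : ZMod (2 ^ K)) - (m : ZMod (2 ^ K)) = 1
          push_cast; ring
        · simp
      rw [e]
      refine ⟨?_, 1, hK, ?_⟩
      · intro h
        have h1 : (1 : ZMod (2 ^ K)) = 0 := congrArg Prod.fst h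
        have h2 : 1 < 2 ^ K := Nat.one_lt_two_pow (by omega)
        have h3 : ((1 : ℕ) : ZMod (2 ^ K)).val = 0 := by
          rw [Nat.cast_one, h1, ZMod.val_zero]
        rw [ZMod.val_natCast, Nat.mod_eq_of_lt h2] at h3
        exact absurd h3 one_ne_zero
      · rw [mem_B]
        exact ⟨⟨1, by norm_num, by simp⟩, zero_mem_H⟩
  have hall : ∀ v : Vt K, (cg K).Reachable (0, 0) v := by
    intro v
    have h1 := hstep v.1.val
    rw [ZMod.natCast_zmod_val] at h1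
    exact h1.trans (hfib v.1 0 v.2)
  have : Nonempty (Vt K) := ⟨0⟩
  exact SimpleGraph.Connected.mk (fun u v => (hall u).symm.trans (hall v))

lemma lam2_cg_le {K : ℕ} (hK : 1 ≤ K) : lam2 (cg K) ≤ 80 * ((K:ℝ) + 1) / 4 ^ K :=
  (lam2_le (cg K) (mu_pos hK) (root_zero hK) (root_mu hK)).trans (mu_le hK)

end graph

/-- The Houdre-Tetali inequality phi_{1/2}(G) ≤ C sqrt(lambda_2(G)) fails for simple random walks on
connected simple graphs: no absolute constant C works. -/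
theorem result : ¬ ∃ C : ℝ, ∀ (V : Type) [Fintype V] [DecidableEq V] (G : SimpleGraph V)
    [DecidableRel G.Adj], G.Connected → 2 ≤ Fintype.card V →
      phi G (1 / 2) ≤ C * Real.sqrt (lam2 G) := by
  rintro ⟨C, hC⟩
  obtain ⟨m, hm⟩ := exists_nat_ge (1440 * |C| + 3)
  have hm3 : (3:ℝ) ≤ m := by
    have := abs_nonneg C
    linarith
  have hm3' : 3 ≤ m := by exact_mod_cast hm3
  obtain ⟨K, hK⟩ : ∃ K, K + 1 = m ^ 2 := ⟨m ^ 2 - 1, by
    have : 1 ≤ m ^ 2 := Nat.one_le_pow _ _ (by omega)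
    omega⟩
  have hK2 : 2 ≤ K := by nlinarith
  have hKr : (K:ℝ) + 1 = (m:ℝ) ^ 2 := by exact_mod_cast hK
  have h1 := hC (Vt K) (cg K) (connected_cg (by omega)) (by
    rw [card_Vt]
    have h2 : 2 ^ 1 ≤ 2 ^ K := Nat.pow_le_pow_right (by norm_num) (by omega)
    have h3 : 1 ≤ 8 ^ K := Nat.one_le_pow _ _ (by norm_num)
    nlinarith)
  have h2 := phi_ge hK2
  have h3 : Real.sqrt (lam2 (cg K)) ≤ 9 * m / 2 ^ K := by
    apply Real.sqrt_le_iff.mpr
    refine ⟨by positivity, (lam2_cg_le (by omega)).trans ?_⟩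
    rw [hKr]
    have h4 : (4:ℝ) ^ K = (2 ^ K) ^ 2 := by rw [← pow_mul, mul_comm, pow_mul]; norm_num
    rw [h4, div_pow, mul_pow]
    gcongr
    norm_num
  have h5 : C * Real.sqrt (lam2 (cg K)) ≤ |C| * (9 * m / 2 ^ K) := by
    calc C * Real.sqrt (lam2 (cg K)) ≤ |C| * Real.sqrt (lam2 (cg K)) := by
          gcongr; exact le_abs_self C
      _ ≤ _ := by gcongr
  have h6 : ((K:ℝ) - 1) / (160 * 2 ^ K) ≤ |C| * (9 * m / 2 ^ K) := by linarith
  have h2K : (0:ℝ) < 2 ^ K := by positivity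
  have h7 : (K:ℝ) - 1 ≤ 1440 * |C| * m := by
    rw [div_le_iff₀ (by positivity)] at h6
    have h8 : |C| * (9 * m / 2 ^ K) * (160 * 2 ^ K) = 1440 * |C| * m := by field_simp; ring
    linarith
  have h9 : (K:ℝ) - 1 = (m:ℝ) ^ 2 - 2 := by linarith
  rw [h9] at h7
  have h10 : (m:ℝ) * (m - 1440 * |C|) ≤ 2 := by nlinarith
  have h11 : (3:ℝ) * 3 ≤ (m:ℝ) * (m - 1440 * |C|) := by
    apply mul_le_mul hm3 (by linarith) (by norm_num) (by linarith)
  linarith

end Pool.Agent.Results.MP_6dcedf_co.HoudreTetaliFails
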